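import Pool.Agent.N922.PQ.Stm2
import Pool.Agent.N415.PQ.SigLie

/-!
# Project PV (helper922), part EXT: automorphisms and completions

Author: helper667, with the part SIG of helper415 (`N415/PQ/SigLie.lean`).
-/

set_option autoImplicit false
set_option linter.all false

open IsDedekindDomain WithZero Filter Topology MonoidWithZeroHom NumberField

namespace Pool.Agent.N667.PV

open Pool.Agent.N922.PQ

section

variable {M R : Type} [Field M] [CommRing R] [IsDedekindDomain R] [Algebra R M]
  [IsFractionRing R M] (σ : M ≃+* M) (w w' : HeightOneSpectrum R)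

/-- The automorphism as a map between the fields with the topologies of the valuations. -/
noncomputable def gg : WithVal (w'.valuation M) →+* WithVal (w.valuation M) :=
  (WithVal.equiv (w.valuation M)).symm.toRingHom.comp
    (σ.toRingHom.comp (WithVal.equiv (w'.valuation M)).toRingHom)

theorem gg_val (x : WithVal (w'.valuation M)) : (gg σ w w' x).ofVal = σ x.ofVal := rfl

theorem gg_cont (h : ∀ x : M, w'.valuation M x = w.valuation M (σ x)) :
    Continuous (gg σ w w') := by
  have key : ContinuousAt (gg σ w w').toAddMonoidHom 0 := by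
    show Tendsto (gg σ w w') (𝓝 0) (𝓝 (gg σ w w' 0))
    rw [map_zero]
    intro s hs
    obtain ⟨γ, hγ⟩ := Valued.mem_nhds_zero.1 hs
    obtain ⟨y, hy⟩ := ValueGroup₀.restrict₀_surjective
      (f := (MonoidWithZeroHom.ofClass (Valued.v (R := WithVal (w.valuation M))))) γ.1
    have hy0 : y ≠ 0 := by
      rintro rfl
      rw [map_zero] at hy
      exact γ.ne_zero hy.symm
    obtain ⟨z, hz⟩ : ∃ z : WithVal (w'.valuation M), z = WithVal.toVal _ (σ.symm y.ofVal) :=
      ⟨_, rfl⟩
    have hz0 : z ≠ 0 := by
      intro h0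
      rw [h0] at hz
      have h1 : σ.symm y.ofVal = 0 := (WithVal.toVal_eq_zero _ _).1 hz.symm
      have h2 : y.ofVal = 0 := by
        rw [← σ.apply_symm_apply y.ofVal, h1, map_zero]
      exact hy0 ((WithVal.toVal_eq_zero _ _).2 h2)
    have hne : (Valued.v (R := WithVal (w'.valuation M))).restrict z ≠ 0 := by
      rw [Valuation.ne_zero_iff]
      exact hz0
    rw [Filter.mem_map, Valued.mem_nhds_zero]
    refine ⟨Units.mk0 _ hne, fun x hx => hγ ?_⟩
    have hx' : Valued.v x < Valued.v z := (Valuation.restrict_lt_iff _).1 hx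
    have hx2 : w'.valuation M x.ofVal < w'.valuation M (σ.symm y.ofVal) := by
      rw [hz] at hx'
      exact hx'
    rw [h, h, σ.apply_symm_apply] at hx2
    show (Valued.v (R := WithVal (w.valuation M))).restrict (gg σ w w' x) < γ.1
    rw [← hy]
    exact (Valuation.restrict_lt_iff _).2 hx2
  exact continuous_of_continuousAt_zero (gg σ w w').toAddMonoidHom key

end

/-- **EXT.** -/
theorem ext : Pool.Agent.N922.PQ.S_EXT := by
  intro M R _ _ _ _ _ _ _ σ w
  obtain ⟨w', hv, hO⟩ := Pool.Agent.N415.PQ.sig M R σ w
  refine ⟨w', (HeightOneSpectrum.adicCompletion.equiv M w).symm.toRingHom.comp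
    ((UniformSpace.Completion.mapRingHom (gg σ w w') (gg_cont σ w w' hv)).comp
      (HeightOneSpectrum.adicCompletion.equiv M w').toRingHom), fun x => ?_, hO⟩
  have h1 := UniformSpace.Completion.mapRingHom_coe (gg_cont σ w w' hv) (WithVal.toVal _ x)
  exact congrArg (HeightOneSpectrum.adicCompletion.equiv M w).symm h1

end Pool.Agent.N667.PV
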